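import Pool.Agent.H97.HV.Targets4
import Pool.Agent.H96.HV.EMB

/-!
# WYP: elementary embeddings between rank initial segments of HOD(V_ γ), with their values

A variant of the row EMB (helper96).
-/

open Ordinal Cardinal Order Set
open scoped ZFSet

universe u

namespace HD.HW.H37

open HD.PRK HD.HV Pool.Agent.H54.WM
open Pool.Agent.H96.HV (wv_ord exists_bd)

theorem pf_YP : HD.HW.T_YP.{u} := by
  classical
  intro K hK hK0 γ hγ E C0 hE1 hE2 hC0 hCE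
  have hpva : T_PVA.{u} := Pool.Agent.H14.HV.pf_PVA
  have hγ0 : 0 < γ := hγ.bot_lt
  have hE3 : ∀ ξ ∈ C0, ξ < K.ord → ∀ x, WV γ ξ x → ∃ ζ, ζ < ξ ∧ x = E ζ ∩ V_ ξ :=
    fun ξ h1 h2 x hx => ((hCE ξ h1 h2).2 x).1 hx
  obtain ⟨C1, hC1, hC1'⟩ := Pool.Agent.H69.HD9.Y4.X K hK hK0 E
  have hcof : K.ord.cof = K := hK.cof_ord
  have hω : ℵ₀ < K.ord.cof := by rw [hcof]; exact hK0
  have hlim : IsSuccLimit K.ord := Cardinal.isSuccLimit_ord hK.aleph0_le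
  have hpos : 0 < K.ord := hlim.bot_lt
  -- the ranks of the small elements
  have h0 : ∀ z, ∃ δ < K.ord, E z ∈ V_ K.ord → (E z).rank = δ := by
    intro z
    by_cases h : E z ∈ V_ K.ord
    · exact ⟨(E z).rank, ZFSet.mem_vonNeumann.1 h, fun _ => rfl⟩
    · exact ⟨0, hpos, fun h' => absurd h' h⟩
  have h1 : ∀ z y, ∃ δ < K.ord, E z ∉ V_ K.ord → y < K.ord →
      ∃ w ∈ E z, y < w.rank ∧ w.rank = δ := by
    intro z y
    by_cases h : E z ∉ V_ K.ord ∧ y < K.ord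
    · obtain ⟨w, hw, hyw⟩ : ∃ w ∈ E z, y < w.rank := by
        by_contra hcon
        push Not at hcon
        apply h.1
        rw [ZFSet.mem_vonNeumann]
        refine lt_of_le_of_lt ?_ (hlim.succ_lt h.2)
        rw [ZFSet.rank_le_iff]
        intro w hw
        exact lt_succ_of_le (hcon w hw)
      exact ⟨w.rank, ZFSet.mem_vonNeumann.1 ((hE1 z).2 hw), fun _ _ => ⟨w, hw, hyw, rfl⟩⟩
    · exact ⟨0, hpos, fun h2 h3 => absurd ⟨h2, h3⟩ h⟩
  have h2 : ∀ z z', ∃ δ < K.ord, E z ≠ E z' → ∃ w : ZFSet.{u}, w.rank = δ ∧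
      ¬ (w ∈ E z ↔ w ∈ E z') := by
    intro z z'
    by_cases h : E z = E z'
    · exact ⟨0, hpos, fun h' => absurd h h'⟩
    · obtain ⟨w, hw⟩ : ∃ w, ¬ (w ∈ E z ↔ w ∈ E z') := by
        by_contra hcon
        push Not at hcon
        exact h (ZFSet.ext fun w => hcon w)
      refine ⟨w.rank, ?_, fun _ => ⟨w, rfl, hw⟩⟩
      by_cases hz : w ∈ E z
      · exact ZFSet.mem_vonNeumann.1 ((hE1 z).2 hz)
      · have hz' : w ∈ E z' := by
          by_contra hz'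
          exact hw ⟨fun h => absurd h hz, fun h => absurd h hz'⟩
        exact ZFSet.mem_vonNeumann.1 ((hE1 z').2 hz')
  choose g0 hg0 hg0' using h0
  choose g1 hg1 hg1' using h1
  choose g2 hg2 hg2' using h2
  obtain ⟨zK, hzK, hzK'⟩ := hE2 K.ord.toZFSet (wv_ord hpva γ K.ord hγ0 hpos)
  obtain ⟨G, hG, hG'⟩ := exists_bd hK
    (fun a b => max (max (g0 a) (g1 a b)) (max (g2 a b) zK))
    (fun a b => max_lt (max_lt (hg0 a) (hg1 a b)) (max_lt (hg2 a b) hzK))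
  refine ⟨(C0 ∩ C1) ∩ {x | 0 < x ∧ ∀ y < x, G y < x}, All.ci K.ord _ _ hω
    (All.ci K.ord _ _ hω hC0 hC1) (All.ve K hK hK0 G hG), ?_⟩
  rintro ξ ⟨⟨hξ0, hξ1⟩, hξp, hξ2⟩ hξ
  have hf : ∀ a < ξ, ∀ b < ξ, max (max (g0 a) (g1 a b)) (max (g2 a b) zK) < ξ := by
    intro a ha b hb
    exact lt_of_le_of_lt (hG' (max a b) ((max_lt ha hb).trans hξ) a (le_max_left _ _) b
      (le_max_right _ _)) (hξ2 _ (max_lt ha hb))
  have hf0 : ∀ a < ξ, g0 a < ξ := fun a ha =>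
    lt_of_le_of_lt ((le_max_left _ _).trans (le_max_left _ _)) (hf a ha a ha)
  have hf1 : ∀ a < ξ, ∀ b < ξ, g1 a b < ξ := fun a ha b hb =>
    lt_of_le_of_lt ((le_max_right _ _).trans (le_max_left _ _)) (hf a ha b hb)
  have hf2 : ∀ a < ξ, ∀ b < ξ, g2 a b < ξ := fun a ha b hb =>
    lt_of_le_of_lt ((le_max_left _ _).trans (le_max_right _ _)) (hf a ha b hb)
  have hzξ : zK < ξ :=
    lt_of_le_of_lt ((le_max_right _ _).trans (le_max_right _ _)) (hf 0 hξp 0 hξp)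
  -- the traces determine the sets
  have ha : ∀ a < ξ, ∀ b < ξ, E a ∩ V_ ξ = E b ∩ V_ ξ → E a = E b := by
    intro a ha b hb h
    by_contra hne
    obtain ⟨w, hw, hw'⟩ := hg2' a b hne
    have hwV : w ∈ V_ ξ := by
      rw [ZFSet.mem_vonNeumann, hw]
      exact hf2 a ha b hb
    apply hw'
    constructor
    · intro h'
      exact (ZFSet.mem_inter.1 (h ▸ ZFSet.mem_inter.2 ⟨h', hwV⟩)).1
    · intro h'
      exact (ZFSet.mem_inter.1 (h.symm ▸ ZFSet.mem_inter.2 ⟨h', hwV⟩)).1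
  -- small sets
  have hb : ∀ a < ξ, E a ∈ V_ K.ord → E a ∈ V_ ξ ∧ E a ∩ V_ ξ = E a := by
    intro a ha h
    have hr : E a ∈ V_ ξ := by
      rw [ZFSet.mem_vonNeumann, hg0' a h]
      exact hf0 a ha
    refine ⟨hr, ?_⟩
    ext w
    rw [ZFSet.mem_inter]
    refine ⟨fun h => h.1, fun h => ⟨h, ?_⟩⟩
    rw [ZFSet.mem_vonNeumann]
    exact (ZFSet.rank_lt_of_mem h).trans (ZFSet.mem_vonNeumann.1 hr)
  have hc : ∀ a < ξ, E a ∩ V_ ξ ∈ V_ ξ → E a ∈ V_ K.ord := by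
    intro a ha h
    by_contra hcon
    have hr := ZFSet.mem_vonNeumann.1 h
    obtain ⟨w, hw, hyw, hwr⟩ := hg1' a _ hcon (hr.trans hξ)
    have hwV : w ∈ V_ ξ := by
      rw [ZFSet.mem_vonNeumann, hwr]
      exact hf1 a ha _ hr
    exact absurd (ZFSet.rank_lt_of_mem (ZFSet.mem_inter.2 ⟨hw, hwV⟩)) (not_lt.2 hyw.le)
  choose! z hz using hE3 ξ hξ0 hξ
  -- the embedding
  have hmem : ∀ x y, WV γ ξ x → WV γ ξ y → (x ∈ y ↔ E (z x) ∈ E (z y)) := by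
    intro x y hx hy
    obtain ⟨hx1, hx2⟩ := hz x hx
    obtain ⟨hy1, hy2⟩ := hz y hy
    constructor
    · intro h
      have hxV : x ∈ V_ ξ := hy.2 h
      have h3 := hc (z x) hx1 (by rw [← hx2]; exact hxV)
      have h4 := (hb (z x) hx1 h3).2
      rw [← hx2] at h4
      rw [← h4]
      rw [hy2] at h
      exact (ZFSet.mem_inter.1 h).1
    · intro h
      have h3 : E (z x) ∈ V_ K.ord := (hE1 (z y)).2 h
      obtain ⟨h5, h4⟩ := hb (z x) hx1 h3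
      rw [← hx2] at h4
      rw [hy2, h4]
      exact ZFSet.mem_inter.2 ⟨h, h5⟩
  have heq : ∀ x y, WV γ ξ x → WV γ ξ y → (x = y ↔ E (z x) = E (z y)) := by
    intro x y hx hy
    constructor
    · intro h
      rw [h]
    · intro h
      rw [(hz x hx).2, (hz y hy).2, h]
  have hsat : ∀ (φ : Fml) (v : ℕ → ZFSet.{u}), (∀ n, WV γ ξ (v n)) →
      (Sat (WV γ ξ) φ v ↔ Sat (fun x => ∃ ζ < ξ, x = E ζ) φ ((fun x => E (z x)) ∘ v)) := by
    intro φ
    induction φ with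
    | mem i j => intro v hv; exact hmem _ _ (hv i) (hv j)
    | eq i j => intro v hv; exact heq _ _ (hv i) (hv j)
    | neg φ ih => intro v hv; exact not_congr (ih v hv)
    | and φ ψ ih1 ih2 => intro v hv; exact and_congr (ih1 v hv) (ih2 v hv)
    | ex φ ih =>
      intro v hv
      have hcc : ∀ x, (fun x => E (z x)) ∘ cons x v = cons (E (z x)) ((fun x => E (z x)) ∘ v) := by
        intro x
        funext n
        rcases n with _ | n <;> rfl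
      have hcv : ∀ x, WV γ ξ x → ∀ n, WV γ ξ (cons x v n) := by
        intro x hx n
        rcases n with _ | n
        · exact hx
        · exact hv n
      show (∃ x, WV γ ξ x ∧ Sat (WV γ ξ) φ (cons x v)) ↔ (∃ x, (∃ ζ < ξ, x = E ζ) ∧
        Sat (fun x => ∃ ζ < ξ, x = E ζ) φ (cons x ((fun x => E (z x)) ∘ v)))
      constructor
      · rintro ⟨x, hx, h⟩
        refine ⟨E (z x), ⟨z x, (hz x hx).1, rfl⟩, ?_⟩
        rw [← hcc x]
        exact (ih _ (hcv x hx)).1 h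
      · rintro ⟨w, ⟨ζ, hζ, rfl⟩, h⟩
        have hx : WV γ ξ (E ζ ∩ V_ ξ) := ((hCE ξ hξ0 hξ).2 _).2 ⟨ζ, hζ, rfl⟩
        refine ⟨E ζ ∩ V_ ξ, hx, (ih _ (hcv _ hx)).2 ?_⟩
        rw [hcc, ha _ (hz _ hx).1 ζ hζ (hz _ hx).2.symm]
        exact h
  have hVK : (fun x => ∃ ζ < K.ord, x = E ζ) = WV γ K.ord := by
    funext x
    apply propext
    constructor
    · rintro ⟨ζ, -, rfl⟩
      exact hE1 ζ
    · exact hE2 x
  refine ⟨(hCE ξ hξ0 hξ).1, hE3 ξ hξ0 hξ, fun x => E (z x), ⟨?_, ?_, ?_, ?_⟩, fun ζ hζ => ?_⟩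
  · intro x _
    exact hE1 _
  · intro φ v hv
    have h5 := hC1' ξ hξ1 hξ φ ((fun x => E (z x)) ∘ v)
      fun n => ⟨z (v n), (hz _ (hv n)).1, rfl⟩
    rw [hVK] at h5
    exact (hsat φ v hv).trans h5
  · intro x hx hxV
    have hxv : WV γ ξ x := ⟨hx, fun y hy => by
      rw [ZFSet.mem_vonNeumann]
      exact (ZFSet.rank_lt_of_mem hy).trans (ZFSet.mem_vonNeumann.1 hxV)⟩
    obtain ⟨hx1, hx2⟩ := hz x hxv
    have h3 := hc (z x) hx1 (by rw [← hx2]; exact hxV)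
    have h4 := (hb (z x) hx1 h3).2
    rw [← hx2] at h4
    exact h4.symm
  · have hxv : WV γ ξ ξ.toZFSet := wv_ord hpva γ ξ hγ0 hξp
    obtain ⟨hx1, hx2⟩ := hz _ hxv
    show E (z ξ.toZFSet) = K.ord.toZFSet
    rw [hzK']
    refine ha _ hx1 _ hzξ ?_
    rw [← hx2, ← hzK']
    ext w
    rw [ZFSet.mem_inter]
    constructor
    · intro h
      obtain ⟨β, hβ, rfl⟩ := mem_toZFSet_iff.1 h
      refine ⟨toZFSet_mem_toZFSet_iff.2 (hβ.trans hξ), ?_⟩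
      rw [ZFSet.mem_vonNeumann, rank_toZFSet]
      exact hβ
    · rintro ⟨h, h'⟩
      obtain ⟨β, hβ, rfl⟩ := mem_toZFSet_iff.1 h
      rw [ZFSet.mem_vonNeumann, rank_toZFSet] at h'
      exact toZFSet_mem_toZFSet_iff.2 h'
  · have hx : WV γ ξ (E ζ ∩ V_ ξ) := ((hCE ξ hξ0 hξ).2 _).2 ⟨ζ, hζ, rfl⟩
    exact ha _ (hz _ hx).1 ζ hζ (hz _ hx).2.symm

end HD.HW.H37
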